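import Mathlib
import Pool.Agent.W844.GP.Defs

set_option autoImplicit false

open Finset MeasureTheory ProbabilityTheory Filter Topology

namespace Pool.Agent.W3.GP

open Pool.Agent.W844.VG (V stp nm)
open Pool.Agent.W844.GP

/-- coordinates along a lattice path -/
lemma chain_bound {d : ℕ} (l : List (V d)) : ∀ (x : V d), (x :: l).IsChain adj →
    ∀ z ∈ l, ∀ j, |z j - x j| ≤ l.length := by
  induction l with
  | nil => intro x _ z hz; simp at hz
  | cons y l ih =>
    intro x hx z hz j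
    have h1 : adj x y := by
      rw [List.isChain_cons_cons] at hx
      exact hx.1
    have h2 : (y :: l).IsChain adj := by
      rw [List.isChain_cons_cons] at hx
      exact hx.2
    have h3 : |y j - x j| ≤ 1 := by
      have h4 : ∑ j, |y j - x j| = 1 := h1
      rw [← h4]
      exact Finset.single_le_sum (f := fun j => |y j - x j|) (fun j _ => abs_nonneg _) (Finset.mem_univ j)
    rcases List.mem_cons.mp hz with hz | hz
    · subst hz
      simp only [List.length_cons]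
      push_cast
      have : (0 : ℤ) ≤ l.length := by positivity
      linarith
    · have h5 := ih y h2 z hz j
      simp only [List.length_cons]
      push_cast
      calc |z j - x j| = |(z j - y j) + (y j - x j)| := by congr 1; ring
        _ ≤ |z j - y j| + |y j - x j| := abs_add_le _ _
        _ ≤ l.length + 1 := by linarith

/-- finitely many paths of bounded length -/
lemma paths_finite {d : ℕ} (x : V d) (n : ℕ) :
    {l : List (V d) | (x :: l).IsChain adj ∧ l.length ≤ n}.Finite := by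
  have hfin : (Set.pi Set.univ fun j : Fin d => Set.Icc (x j - n) (x j + n)).Finite :=
    Set.Finite.pi' (fun j => Set.finite_Icc _ _) |>.subset (by
      intro z hz j
      exact hz j (Set.mem_univ j))
  have h2 : {l : List (V d) | l.length ≤ n ∧ ∀ z ∈ l, z ∈
      (Set.pi Set.univ fun j : Fin d => Set.Icc (x j - (n : ℤ)) (x j + n))}.Finite := by
    have h3 := hfin
    haveI : Finite (Set.pi Set.univ fun j : Fin d => Set.Icc (x j - (n : ℤ)) (x j + n)) := h3
    have h4 := List.finite_length_le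
      (Set.pi Set.univ fun j : Fin d => Set.Icc (x j - (n : ℤ)) (x j + n)) n
    refine (h4.image (List.map Subtype.val)).subset ?_
    rintro l ⟨hl1, hl2⟩
    refine ⟨l.pmap Subtype.mk hl2, by simpa using hl1, ?_⟩
    rw [List.map_pmap]
    simp
  refine h2.subset ?_
  rintro l ⟨h1, h3⟩
  refine ⟨h3, ?_⟩
  intro z hz j _
  have h4 := chain_bound l x h1 z hz j
  rw [abs_le] at h4
  have h5 : (l.length : ℤ) ≤ n := by exact_mod_cast h3
  constructor <;> linarith [h4.1, h4.2]

/-- basic facts on `VV` -/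
theorem vv (d : ℕ) (i : Fin d) (L : ℕ) (B : ℝ) (hB : 0 ≤ B) (h : ℕ) (w : V d → ℝ) :
    (-(B * h) ≤ VV i L B h w) ∧ (VV i L B h w ≤ 0) ∧
    (YY w i L h (-(B * h)) → YY w i L h (VV i L B h w)) ∧
    (∀ c ≤ 0, YY w i L h c → c ≤ VV i L B h w) ∧
    (∀ c, YY w i L h c → ∀ c' ≤ c, YY w i L h c') ∧
    (∀ L' ≥ L, ∀ c, YY w i L h c → YY w i L' h c) ∧
    (∀ L' ≥ L, VV i L B h w ≤ VV i L' B h w) := by
  have hBh : 0 ≤ B * h := by positivity
  have hbdd : ∀ L, BddAbove {c : ℝ | c ≤ 0 ∧ (c ≤ -(B * h) ∨ YY w i L h c)} := fun L =>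
    ⟨0, fun c hc => hc.1⟩
  have hmem : ∀ L, -(B * h) ∈ {c : ℝ | c ≤ 0 ∧ (c ≤ -(B * h) ∨ YY w i L h c)} := fun L =>
    ⟨by linarith, Or.inl le_rfl⟩
  have hmono : ∀ c, YY w i L h c → ∀ c' ≤ c, YY w i L h c' := by
    rintro c ⟨l, h1, h2, h3⟩ c' hc'
    exact ⟨l, h1, h2, hc'.trans h3⟩
  have hmonoL : ∀ L' ≥ L, ∀ c, YY w i L h c → YY w i L' h c := by
    rintro L' hL' c ⟨l, h1, h2, h3⟩
    exact ⟨l, h1, h2.trans (Nat.mul_le_mul_right h hL'), h3⟩
  refine ⟨le_csSup (hbdd L) (hmem L), csSup_le ⟨_, hmem L⟩ fun c hc => hc.1, ?_,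
    fun c hc hy => le_csSup (hbdd L) ⟨hc, Or.inr hy⟩, hmono, hmonoL, ?_⟩
  · intro hY
    -- the maximum is attained
    have hfin : {l : List (V d) | SB i l 0 (pt i h) ∧ l.length ≤ L * h}.Finite :=
      (paths_finite (0 : V d) (L * h)).subset fun l hl => ⟨hl.1.1.1, hl.2⟩
    obtain ⟨l0, hl0, hl0', hl0''⟩ := hY
    have hne : {l : List (V d) | SB i l 0 (pt i h) ∧ l.length ≤ L * h}.Nonempty :=
      ⟨l0, hl0, hl0'⟩
    obtain ⟨m, hm, hmax⟩ := Set.exists_max_image _ (wt w) hfin hne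
    refine ⟨m, hm.1, hm.2, csSup_le ⟨_, hmem L⟩ ?_⟩
    rintro c ⟨hc0, hc | hc⟩
    · exact hc.trans (hl0''.trans (hmax l0 ⟨hl0, hl0'⟩))
    · obtain ⟨l, h1, h2, h3⟩ := hc
      exact h3.trans (hmax l ⟨h1, h2⟩)
  · intro L' hL'
    refine csSup_le_csSup (hbdd L') ⟨_, hmem L⟩ ?_
    rintro c ⟨hc0, hc⟩
    exact ⟨hc0, hc.imp id (hmonoL L' hL' c)⟩

/-- `YY` depends on the strip only -/
theorem yy_dep (d : ℕ) (i : Fin d) (L h : ℕ) (c : ℝ) :
    DependsOn (fun w : V d → ℝ => YY w i L h c) {x | 0 < x i ∧ x i ≤ h} := by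
  have key : ∀ w w' : V d → ℝ, (∀ x ∈ {x : V d | 0 < x i ∧ x i ≤ h}, w x = w' x) →
      YY w i L h c → YY w' i L h c := by
    rintro w w' hw ⟨l, h1, h2, h3⟩
    refine ⟨l, h1, h2, ?_⟩
    have h4 : wt w' l = wt w l := by
      unfold wt
      congr 1
      apply List.map_congr_left
      intro z hz
      have h5 := h1.2.2 z hz
      refine (hw z ⟨?_, ?_⟩).symm
      · simpa using h5.1
      · simpa [pt] using h5.2
    rw [h4]
    exact h3
  intro w w' hw
  exact propext ⟨key w w' hw, key w' w fun x hx => (hw x hx).symm⟩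

/-- `VV` depends on the strip only -/
theorem vv_dep (d : ℕ) (i : Fin d) (L : ℕ) (B : ℝ) (h : ℕ) :
    DependsOn (VV (d := d) i L B h) {x | 0 < x i ∧ x i ≤ h} := by
  intro w w' hw
  unfold VV
  congr 1
  ext c
  have h1 := yy_dep d i L h c hw
  simp only at h1
  rw [Set.mem_setOf_eq, Set.mem_setOf_eq, h1]

end Pool.Agent.W3.GP
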